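import Mathlib

/-!
# Intersections of echelon subgroups of a free group need not be echelon

We define echelon subgroups of `F_n` and show that, already for `n = 2`, the intersection of
two echelon subgroups need not be an echelon subgroup.
-/

namespace Pool.Agent.Results.MP_339e71_al.NotClosed

/-- `G` is a free group of rank `r`. -/
def FreeOfRank (G : Type) [Group G] (r : ℕ) : Prop :=
  Nonempty (FreeGroupBasis (Fin r) G)

/-- For an ordered free basis `X = (x_1, …, x_n)` of `F_n` this is
`F_i = ⟨x_1, …, x_i⟩`, the subgroup generated by the first `i` members of `X`. -/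
def initial {n : ℕ} (X : FreeGroupBasis (Fin n) (FreeGroup (Fin n))) (i : ℕ) :
    Subgroup (FreeGroup (Fin n)) :=
  Subgroup.closure {g | ∃ j : Fin n, (j : ℕ) < i ∧ X j = g}

/-- `H ≤ F_n` is in echelon form with respect to the ordered free basis `X`:
there are ranks `r i = rk (H ∩ F_i)` for `0 ≤ i ≤ n`, with `r (i + 1) - r i ≤ 1`. -/
def InEchelonForm {n : ℕ} (X : FreeGroupBasis (Fin n) (FreeGroup (Fin n)))
    (H : Subgroup (FreeGroup (Fin n))) : Prop :=
  ∃ r : ℕ → ℕ, (∀ i, i ≤ n → FreeOfRank ↥(H ⊓ initial X i) (r i)) ∧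
    ∀ i, i < n → r (i + 1) ≤ r i + 1

/-- `H` is an echelon subgroup of `F_n`. -/
def IsEchelon {n : ℕ} (H : Subgroup (FreeGroup (Fin n))) : Prop :=
  ∃ X : FreeGroupBasis (Fin n) (FreeGroup (Fin n)), InEchelonForm X H

section Rank

variable {ι : Type*} {G : Type*} [Group G]

lemma closure_range_basis (b : FreeGroupBasis ι G) :
    Subgroup.closure (Set.range b) = ⊤ := by
  have h : Subgroup.map (b.repr.symm : FreeGroup ι →* G)
      (Subgroup.closure (Set.range FreeGroup.of)) = Subgroup.closure (Set.range b) := by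
    rw [MonoidHom.map_closure]
    congr 1
    rw [← Set.range_comp]
    rfl
  rw [← h, FreeGroup.closure_range_of]
  exact Subgroup.map_top_of_surjective _ b.repr.symm.surjective

lemma not_commute_of_ne (b : FreeGroupBasis ι G) {i j : ι} (hij : i ≠ j) :
    b i * b j ≠ b j * b i := by
  classical
  intro h
  have h2 := congrArg b.repr h
  simp only [map_mul, FreeGroupBasis.repr_apply_coe] at h2
  have h3 := congrArg FreeGroup.toWord h2
  simp [FreeGroup.toWord_mul, FreeGroup.reduce.cons] at h3
  simp [hij] at h3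

lemma basis_ne_one (b : FreeGroupBasis ι G) (i : ι) : b i ≠ 1 := by
  intro h
  have h2 := congrArg b.repr h
  simp only [FreeGroupBasis.repr_apply_coe, map_one] at h2
  exact FreeGroup.of_ne_one i h2

/-- A free group of rank `r ≤ 1` is commutative. -/
lemma comm_of_rank_le_one {r : ℕ} (hr : r ≤ 1) (b : FreeGroupBasis (Fin r) G) (x y : G) :
    x * y = y * x := by
  have hsub : Subsingleton (Fin r) := by
    interval_cases r <;> infer_instance
  have hx : x ∈ Subgroup.closure (Set.range b) := by
    rw [closure_range_basis]; trivial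
  have hy : y ∈ Subgroup.closure (Set.range b) := by
    rw [closure_range_basis]; trivial
  have hcomm : ∀ u ∈ Set.range b, ∀ v ∈ Set.range b, u * v = v * u := by
    rintro _ ⟨i, rfl⟩ _ ⟨j, rfl⟩
    rw [Subsingleton.elim i j]
  have := Subgroup.isMulCommutative_closure hcomm
  have h3 := this.is_comm.comm (⟨x, hx⟩ : Subgroup.closure (Set.range b)) ⟨y, hy⟩
  exact congrArg Subtype.val h3

/-- If a group with a free basis indexed by `ι` is generated by two elements, `#ι ≤ 2`. -/
lemma card_le_two (b : FreeGroupBasis ι G) (x y : G)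
    (hxy : Subgroup.closure {x, y} = ⊤) : Cardinal.mk ι ≤ 2 := by
  classical
  let φ : G →* Multiplicative (ι →₀ ℚ) :=
    b.lift (fun i => Multiplicative.ofAdd (Finsupp.single i (1 : ℚ)))
  have hφ : ∀ i, φ (b i) = Multiplicative.ofAdd (Finsupp.single i (1 : ℚ)) := by
    intro i
    simp [φ, FreeGroupBasis.lift_apply_apply]
  let V : Submodule ℚ (ι →₀ ℚ) :=
    Submodule.span ℚ {Multiplicative.toAdd (φ x), Multiplicative.toAdd (φ y)}
  have hmem : ∀ g : G, Multiplicative.toAdd (φ g) ∈ V := by
    intro g
    have hg : g ∈ Subgroup.closure {x, y} := by rw [hxy]; trivial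
    induction hg using Subgroup.closure_induction with
    | mem z hz =>
      rcases hz with rfl | hz
      · exact Submodule.subset_span (by simp)
      · rw [Set.mem_singleton_iff] at hz
        subst hz
        exact Submodule.subset_span (by simp)
    | one => simp
    | mul u v _ _ hu hv => rw [map_mul, toAdd_mul]; exact V.add_mem hu hv
    | inv u _ hu => rw [map_inv, toAdd_inv]; exact V.neg_mem hu
  have htop : V = ⊤ := by
    rw [eq_top_iff, ← Finsupp.span_single_eq_top, Submodule.span_le]
    rintro _ ⟨i, c, rfl⟩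
    have h1 := hmem (b i)
    rw [hφ] at h1
    have h2 := V.smul_mem c h1
    simpa using h2
  have hrank : Module.rank ℚ V ≤ 2 := by
    refine (rank_span_le _).trans ?_
    exact Cardinal.mk_insert_le.trans (by simp; norm_num)
  rw [htop, rank_top, rank_finsupp_self] at hrank
  simpa using hrank

/-- A finitely indexed basis can be reindexed by `Fin r`. -/
lemma freeOfRank_of_card_le_two {ι : Type} {G : Type} [Group G] (b : FreeGroupBasis ι G)
    (h : Cardinal.mk ι ≤ 2) : ∃ r, r ≤ 2 ∧ FreeOfRank G r := by
  have hfin : Finite ι := by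
    rw [← Cardinal.lt_aleph0_iff_finite]
    exact h.trans_lt (by exact_mod_cast Cardinal.natCast_lt_aleph0 (n := 2))
  have := Fintype.ofFinite ι
  refine ⟨Fintype.card ι, ?_, ⟨b.reindex (Fintype.equivFin ι)⟩⟩
  rw [Cardinal.mk_fintype] at h
  exact_mod_cast h

/-- A free group generated by two non-commuting elements is free of rank two. -/
lemma freeOfRank_two {G : Type} [Group G] [IsFreeGroup G] (x y : G)
    (hxy : Subgroup.closure {x, y} = ⊤) (hne : x * y ≠ y * x) : FreeOfRank G 2 := by
  obtain ⟨r, hr, ⟨b⟩⟩ := freeOfRank_of_card_le_two (IsFreeGroup.basis G)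
    (card_le_two (IsFreeGroup.basis G) x y hxy)
  rcases Nat.lt_or_ge r 2 with h | h
  · exact absurd (comm_of_rank_le_one (by omega) b x y) hne
  · obtain rfl : r = 2 := le_antisymm hr h
    exact ⟨b⟩

/-- A nontrivial commutative free group is free of rank one. -/
lemma freeOfRank_one {G : Type} [Group G] [IsFreeGroup G] (hcomm : ∀ x y : G, x * y = y * x)
    (g : G) (hg : g ≠ 1) : FreeOfRank G 1 := by
  have b := IsFreeGroup.basis G
  have hsub : Subsingleton (IsFreeGroup.Generators G) :=
    ⟨fun i j => by_contra fun hij => not_commute_of_ne b hij (hcomm _ _)⟩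
  have hne : Nonempty (IsFreeGroup.Generators G) := by
    by_contra hemp
    rw [not_nonempty_iff] at hemp
    have htop := closure_range_basis b
    rw [Set.range_eq_empty, Subgroup.closure_empty] at htop
    have : g ∈ (⊥ : Subgroup G) := by rw [htop]; trivial
    exact hg (Subgroup.mem_bot.mp this)
  have hu : Unique (IsFreeGroup.Generators G) := uniqueOfSubsingleton hne.some
  exact ⟨b.reindex (Equiv.ofUnique _ _)⟩

/-- A trivial group is free of rank zero. -/
lemma freeOfRank_zero {G : Type} [Group G] (h : ∀ g : G, g = 1) : FreeOfRank G 0 := by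
  have : Subsingleton G := ⟨fun a b => by rw [h a, h b]⟩
  have : Subsingleton (FreeGroup (Fin 0)) := inferInstance
  exact ⟨FreeGroupBasis.ofRepr
    { toFun := fun _ => 1
      invFun := fun _ => 1
      left_inv := fun a => Subsingleton.elim _ _
      right_inv := fun a => Subsingleton.elim _ _
      map_mul' := fun a b => by simp }⟩

/-- The rank of a trivial group is zero. -/
lemma rank_eq_zero {G : Type} [Group G] (h : ∀ g : G, g = 1) {r : ℕ} (hr : FreeOfRank G r) :
    r = 0 := by
  obtain ⟨b⟩ := hr
  by_contra hne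
  exact basis_ne_one b ⟨0, Nat.pos_of_ne_zero hne⟩ (h _)

end Rank

section Automaton

/-- Letters of the free group on two generators. -/
abbrev Letter := Fin 2 × Bool

/-- The forward edges of the core graph of `H = ⟨x², y²x²y²⟩`; `fwd 0` are the `x`-edges and
`fwd 1` the `y`-edges.  The base vertex is `0`. -/
def fwd : Fin 2 → Fin 7 → Option (Fin 7)
  | 0, 0 => some 3
  | 0, 3 => some 0
  | 0, 2 => some 4
  | 0, 4 => some 5
  | 1, 0 => some 1
  | 1, 1 => some 2
  | 1, 5 => some 6
  | 1, 6 => some 0
  | _, _ => none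

/-- The backward edges. -/
def bwd : Fin 2 → Fin 7 → Option (Fin 7)
  | 0, 3 => some 0
  | 0, 0 => some 3
  | 0, 4 => some 2
  | 0, 5 => some 4
  | 1, 1 => some 0
  | 1, 2 => some 1
  | 1, 6 => some 5
  | 1, 0 => some 6
  | _, _ => none

/-- The transition function of the automaton of `H`. -/
def stepH (l : Letter) (q : Fin 7) : Option (Fin 7) :=
  if l.2 then fwd l.1 q else bwd l.1 q

/-- The transition function of the automaton of `G`: exchange the roles of `x` and `y`. -/
def stepG (l : Letter) (q : Fin 7) : Option (Fin 7) :=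
  stepH (l.1 + 1, l.2) q

variable {Q : Type} (step : Letter → Q → Option Q)

/-- Reading a word. -/
def run : List Letter → Q → Option Q
  | [], q => some q
  | l :: w, q => (step l q).bind (run w)

lemma run_append (w v : List Letter) (q : Q) :
    run step (w ++ v) q = (run step w q).bind (run step v) := by
  induction w generalizing q with
  | nil => rfl
  | cons l w ih =>
    simp only [List.cons_append, run]
    cases step l q with
    | none => rfl
    | some q' => exact ih q'

/-- The automaton is reversible. -/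
def Reversible : Prop :=
  ∀ (i : Fin 2) (b : Bool) (q q' : Q), step (i, b) q = some q' → step (i, !b) q' = some q

variable {step}

lemma run_step (hs : Reversible step) {w v : List Letter} (h : FreeGroup.Red.Step w v) {q q' : Q}
    (hw : run step w q = some q') : run step v q = some q' := by
  cases h with
  | @not L₁ L₂ x b =>
    rw [run_append] at hw ⊢
    cases h1 : run step L₁ q with
    | none => rw [h1] at hw; simp at hw
    | some q1 =>
      rw [h1] at hw
      simp only [Option.bind_some, run] at hw ⊢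
      cases h2 : step (x, b) q1 with
      | none => rw [h2] at hw; simp at hw
      | some q2 =>
        rw [h2] at hw
        simp only [Option.bind_some] at hw
        rw [hs x b q1 q2 h2] at hw
        simpa using hw

lemma run_red (hs : Reversible step) {w v : List Letter} (h : FreeGroup.Red w v) {q q' : Q}
    (hw : run step w q = some q') : run step v q = some q' := by
  induction h with
  | refl => exact hw
  | tail _ h2 ih => exact run_step hs h2 ih

lemma run_invRev (hs : Reversible step) {w : List Letter} {q q' : Q}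
    (hw : run step w q = some q') : run step (FreeGroup.invRev w) q' = some q := by
  induction w generalizing q with
  | nil =>
    simp only [run, Option.some.injEq] at hw
    subst hw
    simp [run]
  | cons l w ih =>
    simp only [run] at hw
    rw [FreeGroup.invRev_cons, run_append]
    cases h2 : step l q with
    | none => rw [h2] at hw; simp at hw
    | some q2 =>
      rw [h2] at hw
      simp only [Option.bind_some] at hw
      rw [ih hw]
      obtain ⟨i, b⟩ := l
      have := hs i b q q2 h2
      simp [run, FreeGroup.invRev, this]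

/-- The subgroup of elements whose reduced word is read along a closed path at `q`. -/
def loopSubgroup (hs : Reversible step) (q : Q) : Subgroup (FreeGroup (Fin 2)) where
  carrier := {g | run step g.toWord q = some q}
  mul_mem' := by
    intro g h hg hh
    simp only [Set.mem_ofPred_eq] at hg hh ⊢
    rw [FreeGroup.toWord_mul]
    refine run_red hs FreeGroup.reduce.red ?_
    rw [run_append, hg]
    simpa using hh
  one_mem' := by simp [run]
  inv_mem' := by
    intro g hg
    simp only [Set.mem_ofPred_eq] at hg ⊢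
    rw [FreeGroup.toWord_inv]
    exact run_invRev hs hg

lemma reversibleH : Reversible stepH := by
  unfold Reversible
  decide

lemma reversibleG : Reversible stepG := by
  unfold Reversible
  decide

/-- Potential on the product of the two automata: defined on the component of `(0, 0)`. -/
def pot : Fin 7 → Fin 7 → Option ℤ
  | 0, 0 => some 0
  | 0, 2 => some 2
  | 0, 5 => some (-2)
  | 1, 3 => some (-1)
  | 1, 4 => some 1
  | 2, 0 => some (-2)
  | 2, 5 => some 0
  | 3, 1 => some 1
  | 3, 6 => some (-1)
  | 4, 1 => some (-1)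
  | 4, 6 => some 1
  | 5, 0 => some 2
  | 5, 2 => some 0
  | 6, 3 => some 1
  | 6, 4 => some (-1)
  | _, _ => none

/-- The value of a letter under `x ↦ 1`, `y ↦ -1`. -/
def wt (l : Letter) : ℤ :=
  if l.1 = 0 then (if l.2 then 1 else -1) else (if l.2 then -1 else 1)

/-- One step of the product automaton changes the potential by the value of the letter. -/
lemma pot_step : ∀ (l : Letter) (p q : Fin 7),
    (pot p q).isSome → (stepH l p).isSome → (stepG l q).isSome →
    pot ((stepH l p).getD 0) ((stepG l q).getD 0) = (pot p q).map (fun v => v + wt l) := by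
  decide

lemma pot_run (w : List Letter) : ∀ (p q p' q' : Fin 7) (v : ℤ), pot p q = some v →
    run stepH w p = some p' → run stepG w q = some q' →
    pot p' q' = some (v + (w.map wt).sum) := by
  induction w with
  | nil =>
    intro p q p' q' v hv hp hq
    simp only [run, Option.some.injEq] at hp hq
    subst hp hq
    simpa using hv
  | cons l w ih =>
    intro p q p' q' v hv hp hq
    simp only [run] at hp hq
    cases h1 : stepH l p with
    | none => rw [h1] at hp; simp at hp
    | some p1 =>
      cases h2 : stepG l q with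
      | none => rw [h2] at hq; simp at hq
      | some q1 =>
        rw [h1] at hp
        rw [h2] at hq
        simp only [Option.bind_some] at hp hq
        have h3 := pot_step l p q (by simp [hv]) (by simp [h1]) (by simp [h2])
        rw [h1, h2, hv] at h3
        simp only [Option.getD_some, Option.map_some] at h3
        rw [ih p1 q1 p' q' _ h3 hp hq]
        simp only [List.map_cons, List.sum_cons]
        congr 1
        ring

/-- The homomorphism `x ↦ 1`, `y ↦ -1`. -/
def δ : FreeGroup (Fin 2) →* Multiplicative ℤ :=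
  FreeGroup.lift ![Multiplicative.ofAdd 1, Multiplicative.ofAdd (-1)]

lemma δ_eq (w : List Letter) :
    Multiplicative.toAdd (δ (FreeGroup.mk w)) = (w.map wt).sum := by
  induction w with
  | nil => rfl
  | cons l w ih =>
    have : FreeGroup.mk (l :: w) = FreeGroup.mk [l] * FreeGroup.mk w := rfl
    rw [this, map_mul, toAdd_mul, ih, List.map_cons, List.sum_cons]
    congr 1
    obtain ⟨i, b⟩ := l
    fin_cases i <;> cases b <;> simp [δ, wt, FreeGroup.lift_mk]

end Automaton

/-- The generator `x`. -/
def x : FreeGroup (Fin 2) := FreeGroup.of 0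

/-- The generator `y`. -/
def y : FreeGroup (Fin 2) := FreeGroup.of 1

/-- The first subgroup. -/
def subH : Subgroup (FreeGroup (Fin 2)) := Subgroup.closure {x ^ 2, y ^ 2 * x ^ 2 * y ^ 2}

/-- The second subgroup. -/
def subG : Subgroup (FreeGroup (Fin 2)) := Subgroup.closure {y ^ 2, x ^ 2 * y ^ 2 * x ^ 2}

lemma subH_le : subH ≤ loopSubgroup reversibleH 0 := by
  unfold subH
  rw [Subgroup.closure_le]
  rintro g (rfl | hg)
  · change run stepH (FreeGroup.toWord (x ^ 2)) 0 = some 0
    decide
  · rw [Set.mem_singleton_iff] at hg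
    subst hg
    change run stepH (FreeGroup.toWord (y ^ 2 * x ^ 2 * y ^ 2)) 0 = some 0
    decide

lemma subG_le : subG ≤ loopSubgroup reversibleG 0 := by
  unfold subG
  rw [Subgroup.closure_le]
  rintro g (rfl | hg)
  · change run stepG (FreeGroup.toWord (y ^ 2)) 0 = some 0
    decide
  · rw [Set.mem_singleton_iff] at hg
    subst hg
    change run stepG (FreeGroup.toWord (x ^ 2 * y ^ 2 * x ^ 2)) 0 = some 0
    decide

/-- Elements of `H ∩ G` have `x`-exponent sum equal to the `y`-exponent sum. -/
lemma δ_eq_one {g : FreeGroup (Fin 2)} (hH : g ∈ subH) (hG : g ∈ subG) : δ g = 1 := by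
  have h1 : run stepH g.toWord 0 = some 0 := subH_le hH
  have h2 : run stepG g.toWord 0 = some 0 := subG_le hG
  have h3 := pot_run g.toWord 0 0 0 0 0 rfl h1 h2
  have h4 : (0 : ℤ) = 0 + (g.toWord.map wt).sum := by
    have : pot 0 0 = some 0 := rfl
    rw [this] at h3
    exact Option.some.inj h3
  have h5 := δ_eq g.toWord
  rw [FreeGroup.mk_toWord] at h5
  apply Multiplicative.toAdd.injective
  rw [h5]
  simpa using h4.symm

section Dihedral

/-- The infinite dihedral group. -/
abbrev D := DihedralGroup 0

/-- `x` and `y` go to two reflections generating the infinite dihedral group. -/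
def σ : FreeGroup (Fin 2) →* D :=
  FreeGroup.lift ![DihedralGroup.sr 0, DihedralGroup.sr 1]

lemma σ_subH {g : FreeGroup (Fin 2)} (hg : g ∈ subH) : σ g = 1 := by
  have : subH ≤ σ.ker := by
    unfold subH
    rw [Subgroup.closure_le]
    rintro g (rfl | hg)
    · rfl
    · rw [Set.mem_singleton_iff] at hg
      subst hg
      rfl
  exact this hg

/-- Rotations have even length. -/
def P2 : D →* Multiplicative (ZMod 2) where
  toFun
    | DihedralGroup.r _ => Multiplicative.ofAdd 0
    | DihedralGroup.sr _ => Multiplicative.ofAdd 1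
  map_one' := rfl
  map_mul' := by
    rintro (i | i) (j | j)
    · rfl
    · rfl
    · rfl
    · rw [DihedralGroup.sr_mul_sr, ← ofAdd_add]
      exact congrArg Multiplicative.ofAdd (by decide : (0 : ZMod 2) = 1 + 1)

/-- Reduction of the index modulo two. -/
def red2 : ZMod 0 →+* ZMod 2 := ZMod.castHom (dvd_zero 2) (ZMod 2)

/-- Parity of the index. -/
def P1 : D →* Multiplicative (ZMod 2) where
  toFun
    | DihedralGroup.r k => Multiplicative.ofAdd (red2 k)
    | DihedralGroup.sr k => Multiplicative.ofAdd (red2 k)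
  map_one' := by
    change Multiplicative.ofAdd (red2 0) = 1
    rw [map_zero]; rfl
  map_mul' := by
    have h2 : ∀ a : ZMod 2, -a = a := by decide
    rintro (i | i) (j | j)
    · simp only [DihedralGroup.r_mul_r, ← ofAdd_add, map_add]
    · simp only [DihedralGroup.r_mul_sr, ← ofAdd_add, map_sub]
      rw [sub_eq_add_neg, h2, add_comm]
    · simp only [DihedralGroup.sr_mul_r, ← ofAdd_add, map_add]
    · simp only [DihedralGroup.sr_mul_sr, ← ofAdd_add, map_sub]
      rw [sub_eq_add_neg, h2, add_comm]

/-- The `x`-exponent sum. -/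
def ex : FreeGroup (Fin 2) →* Multiplicative ℤ :=
  FreeGroup.lift ![Multiplicative.ofAdd 1, Multiplicative.ofAdd 0]

/-- The `y`-exponent sum. -/
def ey : FreeGroup (Fin 2) →* Multiplicative ℤ :=
  FreeGroup.lift ![Multiplicative.ofAdd 0, Multiplicative.ofAdd 1]

lemma hom_eq {A : Type} [CommGroup A] (f : FreeGroup (Fin 2) →* A) (u : FreeGroup (Fin 2)) :
    f u = f x ^ (Multiplicative.toAdd (ex u)) * f y ^ (Multiplicative.toAdd (ey u)) := by
  let F : FreeGroup (Fin 2) →* A :=
    { toFun := fun u => f x ^ (Multiplicative.toAdd (ex u)) * f y ^ (Multiplicative.toAdd (ey u))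
      map_one' := by simp
      map_mul' := by
        intro a b
        simp only [map_mul, toAdd_mul, zpow_add]
        exact mul_mul_mul_comm _ _ _ _ }
  have : f = F := by
    ext i
    fin_cases i
    · simp [F, ex, ey, x]
    · simp [F, ex, ey, y]
  exact congrArg (fun g : FreeGroup (Fin 2) →* A => g u) this

lemma δ_eq_div (u : FreeGroup (Fin 2)) :
    Multiplicative.toAdd (δ u) = Multiplicative.toAdd (ex u) - Multiplicative.toAdd (ey u) := by
  rw [hom_eq δ u]
  simp [δ, x, y, sub_eq_add_neg]

/-- The key point: no nontrivial power of an element `u` which is nontrivial in some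
`ℤ/2`-quotient lies in `H ∩ G`. -/
lemma no_power {u : FreeGroup (Fin 2)} (f : FreeGroup (Fin 2) →* Multiplicative (ZMod 2))
    (hf : f u ≠ 1) (m : ℤ) (hm : m ≠ 0) (hH : u ^ m ∈ subH) (hG : u ^ m ∈ subG) : False := by
  have h1 : δ (u ^ m) = 1 := δ_eq_one hH hG
  have h2 : Multiplicative.toAdd (ex u) = Multiplicative.toAdd (ey u) := by
    rw [map_zpow] at h1
    have h3 := congrArg Multiplicative.toAdd h1
    rw [toAdd_zpow, toAdd_one, smul_eq_mul, mul_eq_zero] at h3
    have h4 := h3.resolve_left hm
    rw [δ_eq_div] at h4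
    linarith
  generalize hc : Multiplicative.toAdd (ex u) = c at h2
  have hpar : ∀ (g : FreeGroup (Fin 2) →* Multiplicative (ZMod 2)),
      Multiplicative.toAdd (g u) = (c : ZMod 2) * (Multiplicative.toAdd (g x) +
        Multiplicative.toAdd (g y)) := by
    intro g
    rw [hom_eq g u, hc, ← h2]
    simp [mul_add]
  have hcodd : (c : ZMod 2) = 1 := by
    have h3 := hpar f
    have h4 : ∀ a b : ZMod 2, a ≠ 0 → a = b * 1 ∨ a = b * 0 → b = 1 := by decide
    have h5 : Multiplicative.toAdd (f u) ≠ 0 := fun h => hf h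
    by_contra hne
    have h6 : (c : ZMod 2) = 0 := by
      have : ∀ a : ZMod 2, a ≠ 1 → a = 0 := by decide
      exact this _ hne
    rw [h6, zero_mul] at h3
    exact h5 h3
  have hP2 := hpar (P2.comp σ)
  have hP1 := hpar (P1.comp σ)
  have e1 : Multiplicative.toAdd ((P2.comp σ) x) = 1 := rfl
  have e2 : Multiplicative.toAdd ((P2.comp σ) y) = 1 := rfl
  have e3 : Multiplicative.toAdd ((P1.comp σ) x) = 0 := by
    change red2 0 = 0
    exact map_zero _
  have e4 : Multiplicative.toAdd ((P1.comp σ) y) = 1 := by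
    change red2 1 = 1
    exact map_one _
  rw [e1, e2, hcodd] at hP2
  rw [e3, e4, hcodd] at hP1
  have hσ : σ (u ^ m) = 1 := σ_subH hH
  rw [map_zpow] at hσ
  simp only [MonoidHom.comp_apply] at hP1 hP2
  rcases hσu : σ u with k | k
  · rw [hσu] at hP1 hσ
    rw [DihedralGroup.r_zpow, DihedralGroup.one_def] at hσ
    have hk : k * (Int.cast m : ZMod 0) = 0 := by
      injection hσ
    have hk1 : red2 k = 1 := by simpa [P1] using hP1
    have hm0 : (Int.cast m : ZMod 0) ≠ 0 := by
      intro h
      apply hm
      exact_mod_cast h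
    rcases mul_eq_zero.mp hk with h | h
    · rw [h, map_zero] at hk1
      exact absurd hk1 (by decide)
    · exact hm0 h
  · rw [hσu] at hP2
    have : (1 : ZMod 2) = 1 * (1 + 1) := hP2
    exact absurd this (by decide)

end Dihedral

section Final

lemma initial_zero {n : ℕ} (X : FreeGroupBasis (Fin n) (FreeGroup (Fin n))) :
    initial X 0 = ⊥ := by
  unfold initial
  simp

lemma initial_one (X : FreeGroupBasis (Fin 2) (FreeGroup (Fin 2))) :
    initial X 1 = Subgroup.zpowers (X 0) := by
  unfold initial
  rw [Subgroup.zpowers_eq_closure]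
  congr 1
  ext g
  simp only [Set.mem_ofPred_eq, Set.mem_singleton_iff]
  constructor
  · rintro ⟨j, hj, rfl⟩
    have : j = 0 := by
      apply Fin.ext
      simpa using hj
    rw [this]
  · rintro rfl
    exact ⟨0, by simp, rfl⟩

lemma initial_two (X : FreeGroupBasis (Fin 2) (FreeGroup (Fin 2))) :
    initial X 2 = ⊤ := by
  unfold initial
  rw [← closure_range_basis X]
  congr 1
  ext g
  simp only [Set.mem_ofPred_eq, Set.mem_range]
  constructor
  · rintro ⟨j, _, rfl⟩
    exact ⟨j, rfl⟩
  · rintro ⟨j, rfl⟩
    exact ⟨j, j.2, rfl⟩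

lemma echelon_of (X : FreeGroupBasis (Fin 2) (FreeGroup (Fin 2)))
    (H : Subgroup (FreeGroup (Fin 2))) (a b : FreeGroup (Fin 2))
    (hH : H = Subgroup.closure {a, b}) (hab : a * b ≠ b * a)
    (g : FreeGroup (Fin 2)) (hg : g ∈ H) (hgX : g ∈ Subgroup.zpowers (X 0)) (hg1 : g ≠ 1) :
    InEchelonForm X H := by
  refine ⟨fun i => i, ?_, fun i _ => le_refl _⟩
  intro i hi
  interval_cases i
  · rw [initial_zero]
    refine freeOfRank_zero ?_
    rintro ⟨z, hz⟩
    rw [inf_bot_eq, Subgroup.mem_bot] at hz
    exact Subtype.ext hz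
  · rw [initial_one]
    have hfree : IsFreeGroup ↥(H ⊓ Subgroup.zpowers (X 0)) := subgroupIsFreeOfIsFree _
    refine freeOfRank_one ?_ ⟨g, hg, hgX⟩ ?_
    · rintro ⟨u, hu⟩ ⟨v, hv⟩
      apply Subtype.ext
      obtain ⟨i, rfl⟩ := Subgroup.mem_zpowers_iff.mp hu.2
      obtain ⟨j, rfl⟩ := Subgroup.mem_zpowers_iff.mp hv.2
      exact zpow_mul_comm _ _ _
    · intro h
      exact hg1 (congrArg Subtype.val h)
  · rw [initial_two, inf_top_eq]
    have hfree : IsFreeGroup H := subgroupIsFreeOfIsFree _
    have ha : a ∈ H := by rw [hH]; exact Subgroup.subset_closure (by simp)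
    have hb : b ∈ H := by rw [hH]; exact Subgroup.subset_closure (by simp)
    refine freeOfRank_two ⟨a, ha⟩ ⟨b, hb⟩ ?_ ?_
    · have hmap : Subgroup.map H.subtype
          (Subgroup.closure {(⟨a, ha⟩ : H), ⟨b, hb⟩}) = H := by
        rw [MonoidHom.map_closure, Set.image_pair]
        exact hH.symm
      apply Subgroup.map_injective H.subtype_injective
      rw [hmap, ← MonoidHom.range_eq_map, Subgroup.range_subtype]
    · intro h
      exact hab (congrArg Subtype.val h)

lemma isEchelon_subH : IsEchelon subH := by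
  refine ⟨FreeGroupBasis.ofFreeGroup (Fin 2), ?_⟩
  refine echelon_of _ subH (x ^ 2) (y ^ 2 * x ^ 2 * y ^ 2) rfl (by decide) (x ^ 2) ?_ ?_ (by decide)
  · exact Subgroup.subset_closure (by simp)
  · exact ⟨2, rfl⟩

lemma isEchelon_subG : IsEchelon subG := by
  refine ⟨(FreeGroupBasis.ofFreeGroup (Fin 2)).reindex (Equiv.swap 0 1), ?_⟩
  refine echelon_of _ subG (y ^ 2) (x ^ 2 * y ^ 2 * x ^ 2) rfl (by decide) (y ^ 2) ?_ ?_ (by decide)
  · exact Subgroup.subset_closure (by simp)
  · refine ⟨2, ?_⟩
    rfl

lemma mem_inf_one : (x ^ 2 * y ^ 2) ^ 2 ∈ subH ⊓ subG := by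
  have hx : x ^ 2 ∈ subH := Subgroup.subset_closure (by simp)
  have hy : y ^ 2 * x ^ 2 * y ^ 2 ∈ subH := Subgroup.subset_closure (by simp)
  have hx' : x ^ 2 * y ^ 2 * x ^ 2 ∈ subG := Subgroup.subset_closure (by simp)
  have hy' : y ^ 2 ∈ subG := Subgroup.subset_closure (by simp)
  constructor
  · have := subH.mul_mem hx hy
    have e : x ^ 2 * (y ^ 2 * x ^ 2 * y ^ 2) = (x ^ 2 * y ^ 2) ^ 2 := by
      rw [pow_two (x ^ 2 * y ^ 2)]; group
    rwa [e] at this
  · have := subG.mul_mem hx' hy'
    have e : x ^ 2 * y ^ 2 * x ^ 2 * y ^ 2 = (x ^ 2 * y ^ 2) ^ 2 := by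
      rw [pow_two (x ^ 2 * y ^ 2)]; group
    rwa [e] at this

lemma mem_inf_two : (y ^ 2 * x ^ 2) ^ 2 ∈ subH ⊓ subG := by
  have hx : x ^ 2 ∈ subH := Subgroup.subset_closure (by simp)
  have hy : y ^ 2 * x ^ 2 * y ^ 2 ∈ subH := Subgroup.subset_closure (by simp)
  have hx' : x ^ 2 * y ^ 2 * x ^ 2 ∈ subG := Subgroup.subset_closure (by simp)
  have hy' : y ^ 2 ∈ subG := Subgroup.subset_closure (by simp)
  constructor
  · have := subH.mul_mem hy hx
    have e : y ^ 2 * x ^ 2 * y ^ 2 * x ^ 2 = (y ^ 2 * x ^ 2) ^ 2 := by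
      rw [pow_two (y ^ 2 * x ^ 2)]; group
    rwa [e] at this
  · have := subG.mul_mem hy' hx'
    have e : y ^ 2 * (x ^ 2 * y ^ 2 * x ^ 2) = (y ^ 2 * x ^ 2) ^ 2 := by
      rw [pow_two (y ^ 2 * x ^ 2)]; group
    rwa [e] at this

lemma not_isEchelon : ¬ IsEchelon (subH ⊓ subG) := by
  rintro ⟨X, r, hr, hr1⟩
  have h0 : r 0 = 0 := by
    refine rank_eq_zero ?_ (hr 0 (by norm_num))
    rintro ⟨z, hz⟩
    rw [initial_zero, inf_bot_eq, Subgroup.mem_bot] at hz
    exact Subtype.ext hz
  have h2 : 2 ≤ r 2 := by
    by_contra hlt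
    have hfr := hr 2 le_rfl
    rw [initial_two, inf_top_eq] at hfr
    obtain ⟨b⟩ := hfr
    have := comm_of_rank_le_one (by omega) b ⟨_, mem_inf_one⟩ ⟨_, mem_inf_two⟩
    have := congrArg Subtype.val this
    revert this
    change ¬ ((x ^ 2 * y ^ 2) ^ 2 * (y ^ 2 * x ^ 2) ^ 2 =
      (y ^ 2 * x ^ 2) ^ 2 * (x ^ 2 * y ^ 2) ^ 2)
    decide
  have h1 : 1 ≤ r 1 := by
    have := hr1 1 (by norm_num)
    have : r 2 ≤ r 1 + 1 := this
    omega
  obtain ⟨b⟩ := hr 1 (by norm_num)
  have hb := basis_ne_one b ⟨0, h1⟩
  generalize b ⟨0, h1⟩ = z at hb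
  obtain ⟨g, hg⟩ := z
  have hg1 : g ≠ 1 := fun h => hb (Subtype.ext h)
  rw [initial_one] at hg
  obtain ⟨⟨hgH, hgG⟩, hgX⟩ := hg
  obtain ⟨m, rfl⟩ := Subgroup.mem_zpowers_iff.mp hgX
  have hm : m ≠ 0 := by
    rintro rfl
    exact hg1 (zpow_zero _)
  let f : FreeGroup (Fin 2) →* Multiplicative (ZMod 2) :=
    X.lift ![Multiplicative.ofAdd 1, Multiplicative.ofAdd 0]
  have hf : f (X 0) = Multiplicative.ofAdd 1 := by
    simp [f, FreeGroupBasis.lift_apply_apply]
  refine no_power f ?_ m hm hgH hgG
  rw [hf]
  decide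

/-- **Echelon subgroups are not closed under intersection.**  In the free group
`F_2 = ⟨x, y⟩` the subgroups `H = ⟨x², y²x²y²⟩` and `G = ⟨y², x²y²x²⟩` are echelon subgroups,
but `H ∩ G` is not an echelon subgroup: it is in echelon form with respect to no ordered
free basis of `F_2`. -/
theorem result :
    ∃ H G : Subgroup (FreeGroup (Fin 2)),
      H = Subgroup.closure {x ^ 2, y ^ 2 * x ^ 2 * y ^ 2} ∧
      G = Subgroup.closure {y ^ 2, x ^ 2 * y ^ 2 * x ^ 2} ∧
      IsEchelon H ∧ IsEchelon G ∧ ¬ IsEchelon (H ⊓ G) :=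
  ⟨subH, subG, rfl, rfl, isEchelon_subH, isEchelon_subG, not_isEchelon⟩

/-- The negation of the question's statement, literally. -/
theorem not_forall : ¬ ∀ n : ℕ, 1 ≤ n → ∀ H G : Subgroup (FreeGroup (Fin n)),
    IsEchelon H → IsEchelon G → IsEchelon (H ⊓ G) := by
  intro h
  exact not_isEchelon (h 2 (by norm_num) subH subG isEchelon_subH isEchelon_subG)

end Final

end Pool.Agent.Results.MP_339e71_al.NotClosed
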